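import Pool.Agent.U186.AF.Final

/-!
# The discriminant exponent of the associated form is always one

Forms of degree `d` in `n` variables are given by their coefficient vectors, and polynomial
functions on the space of forms are elements of `MvPolynomial (Monomials n d) ℂ`. We show that the
exponent `p (n, d)` equals one for all `n ≥ 2` and `d ≥ 3`: if `Δ` is the discriminant and `Φ` is
the morphism which takes a nondegenerate form to its associated form, then `Δ * Φ` extends to a
morphism on the space of all forms.
-/

namespace Pool.Agent.Results.MP_2a8a61_ag.DiscriminantExponent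

open MvPolynomial

/-- The exponent vectors of the monomials of degree `d` in `n` variables. -/
abbrev Monomials (n d : ℕ) : Type := {m : Fin n →₀ ℕ // m.degree = d}

noncomputable instance (n d : ℕ) : Fintype (Monomials n d) :=
  inferInstanceAs (Fintype (Pool.Agent.U186.AF.Mon (Fin n) d))

/-- The form of degree `d` in the variables `X 0, …, X (n - 1)` with coefficient vector `c`. -/
noncomputable def form {n d : ℕ} (c : Monomials n d → ℂ) : MvPolynomial (Fin n) ℂ :=
  ∑ m, monomial m.1 (c m)

/-- The form with coefficient vector `c` is nondegenerate: its partial derivatives have no common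
zero but the origin. -/
def IsNondegenerate {n d : ℕ} (c : Monomials n d → ℂ) : Prop :=
  ∀ x : Fin n → ℂ, (∀ j, eval x (pderiv j (form c)) = 0) → x = 0

/-- The ideal generated by the partial derivatives of the form with coefficient vector `c`. -/
noncomputable def jacobianIdeal {n d : ℕ} (c : Monomials n d → ℂ) :
    Ideal (MvPolynomial (Fin n) ℂ) :=
  Ideal.span (Set.range fun j => pderiv j (form c))

/-- The Hessian determinant of the form with coefficient vector `c`. -/
noncomputable def hessian {n d : ℕ} (c : Monomials n d → ℂ) : MvPolynomial (Fin n) ℂ :=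
  Matrix.det (Matrix.of fun i j => pderiv i (pderiv j (form c)))

/-- `v` is the value at `z` of the associated form of the form `f` with coefficient vector `c`:
the number `v` is the unique complex number such that `(z 0 X 0 + ⋯ + z (n-1) X (n-1)) ^ (n (d-2))`
is congruent to `v` times the Hessian of `f` modulo the partial derivatives of `f`. -/
def IsAssociatedValue {n d : ℕ} (c : Monomials n d → ℂ) (z : Fin n → ℂ) (v : ℂ) : Prop :=
  ∀ w : ℂ, (∑ j, C (z j) * X j) ^ (n * (d - 2)) - C w * hessian c ∈ jacobianIdeal c ↔ w = v

/-- `Δ` is a discriminant of forms of degree `d` in `n` variables: an irreducible polynomial in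
the coefficients which vanishes exactly at the degenerate forms. -/
def IsDiscriminant (n d : ℕ) (Δ : MvPolynomial (Monomials n d) ℂ) : Prop :=
  Irreducible Δ ∧ ∀ c : Monomials n d → ℂ, eval c Δ = 0 ↔ ¬ IsNondegenerate c

/-- `Δ ^ p * Φ` extends to a morphism from the space of forms of degree `d` in `n` variables to the
space of forms of degree `n * (d - 2)`, where `Φ` takes a nondegenerate form to its associated
form: there is a form `Ψ` of degree `n * (d - 2)` in `n` variables, whose coefficients are
polynomial functions on the space of forms of degree `d`, such that for each nondegenerate form,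
with coefficient vector `c`, and each `z`, the value of `Ψ` at `c` and `z` is `Δ c ^ p` times the
value at `z` of the associated form. -/
def Extends (n d : ℕ) (Δ : MvPolynomial (Monomials n d) ℂ) (p : ℕ) : Prop :=
  ∃ Ψ : MvPolynomial (Fin n) (MvPolynomial (Monomials n d) ℂ), Ψ.IsHomogeneous (n * (d - 2)) ∧
    ∀ c : Monomials n d → ℂ, IsNondegenerate c → ∀ z : Fin n → ℂ,
      ∃ v : ℂ, IsAssociatedValue c z v ∧ eval z (map (eval c) Ψ) = eval c Δ ^ p * v

/-- For all `n ≥ 2` and `d ≥ 3`, there is a discriminant of the forms of degree `d` in `n`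
variables, and for each discriminant `Δ`, the smallest positive integer `p` such that `Δ ^ p * Φ`
extends to a morphism on the space of all forms is one. -/
theorem result (n d : ℕ) (hn : 2 ≤ n) (hd : 3 ≤ d) :
    (∃ Δ : MvPolynomial (Monomials n d) ℂ, IsDiscriminant n d Δ) ∧
      ∀ Δ : MvPolynomial (Monomials n d) ℂ, IsDiscriminant n d Δ →
        IsLeast {p : ℕ | 0 < p ∧ Extends n d Δ p} 1 := by
  have : Nonempty (Fin n) := ⟨⟨0, by omega⟩⟩
  refine ⟨?_, fun Δ hΔ => ⟨⟨one_pos, ?_⟩, fun p hp => hp.1⟩⟩
  · exact Pool.Agent.U186.AF.exists_disc (σ := Fin n) (k := ℂ) (d := d) (by omega)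
  · obtain ⟨Ψ, h1, h2⟩ := Pool.Agent.U186.AF.extends_one (σ := Fin n) (k := ℂ) (d := d)
      (by omega) Δ hΔ.1.ne_zero fun v hv => (hΔ.2 v).mpr hv
    simp only [Fintype.card_fin] at h1 h2
    refine ⟨Ψ, h1, fun c hc z => ?_⟩
    obtain ⟨v, h3, h4⟩ := h2 c hc z
    exact ⟨v, h3, by rw [pow_one, h4, mul_comm]⟩

end Pool.Agent.Results.MP_2a8a61_ag.DiscriminantExponent
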